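import Pool.Agent.Run7.h932.U.Final

/-!
Borel edge colourings with degree plus one colours of the Schreier graphs of Borel actions of
asymptotic separation index at most one.  Generators of odd order are allowed.
-/

set_option autoImplicit false

namespace Pool.Agent.Results.MP_110ff7_lc.SeparationIndexOne

/-- the Schreier graph -/
def SG (Γ : Type) [Group Γ] (S : Finset Γ) (hsym : ∀ s ∈ S, s⁻¹ ∈ S) (X : Type)
    [MulAction Γ X] : SimpleGraph X where
  Adj x y := x ≠ y ∧ ∃ s ∈ S, s • x = y
  symm := by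
    constructor
    rintro x y ⟨hne, s, hs, rfl⟩
    exact ⟨hne.symm, s⁻¹, hsym s hs, by simp⟩
  loopless := ⟨fun x h => h.1 rfl⟩

/-- Let `S` be a finite symmetric subset of a group `Γ` acting in a Borel way on a standard Borel space
`X`, and suppose that for every finite `F ⊆ Γ` the space is covered by two Borel sets on each of which the
relation generated by moving inside the set by elements of `F` has finite classes (asymptotic separation
index at most one). Then the Schreier graph has a Borel proper edge colouring with `|S| + 1` colours. -/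
theorem result (Γ : Type) [Group Γ] (S : Finset Γ) (X : Type) [MeasurableSpace X]
    [StandardBorelSpace X] [MulAction Γ X]
    (hsym : ∀ s ∈ S, s⁻¹ ∈ S)
    (hmeas : ∀ γ : Γ, Measurable (fun x : X => γ • x))
    (hasi : ∀ F : Finset Γ, ∃ U : Fin 2 → Set X, (∀ i, MeasurableSet (U i)) ∧
      (⋃ i, U i) = Set.univ ∧ ∀ (i : Fin 2) (x : X),
        {y : X | Relation.ReflTransGen (fun a b : X => a ∈ U i ∧ b ∈ U i ∧ ∃ γ ∈ F, γ • a = b)
          x y}.Finite) :
    ∃ c : X × X → Fin (S.card + 1), Measurable c ∧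
      (∀ x y : X, c (x, y) = c (y, x)) ∧
      (∀ x y z : X, (x ≠ y ∧ ∃ s ∈ S, s • x = y) → (x ≠ z ∧ ∃ s ∈ S, s • x = z) →
        y ≠ z → c (x, y) ≠ c (x, z)) := by
  classical
  let G : SimpleGraph X := SG Γ S hsym X
  have hdiag : MeasurableSet {p : X × X | p.1 ≠ p.2} :=
    (measurableSet_eq_fun measurable_fst measurable_snd).compl
  have hGm : MeasurableSet {p : X × X | G.Adj p.1 p.2} := by
    have h1 : {p : X × X | G.Adj p.1 p.2} =
        {p : X × X | p.1 ≠ p.2} ∩ ⋃ s ∈ S, {p : X × X | s • p.1 = p.2} := by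
      ext p
      simp only [Set.mem_inter_iff, Set.mem_iUnion, exists_prop]
      exact Iff.rfl
    rw [h1]
    refine hdiag.inter (Finset.measurableSet_biUnion S (fun s _ => ?_))
    exact measurableSet_eq_fun ((hmeas s).comp measurable_fst) measurable_snd
  have hdeg : ∀ x : X, (G.neighborSet x).encard ≤ (S.card : ℕ∞) := by
    intro x
    have h1 : G.neighborSet x ⊆ (fun s : Γ => s • x) '' (S : Set Γ) := by
      rintro y ⟨-, s, hs, rfl⟩
      exact ⟨s, hs, rfl⟩
    calc (G.neighborSet x).encard ≤ ((fun s : Γ => s • x) '' (S : Set Γ)).encard :=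
          Set.encard_le_encard h1
      _ ≤ (S : Set Γ).encard := Set.encard_image_le _ _
      _ = (S.card : ℕ∞) := Set.encard_coe_eq_coe_finsetCard S
  -- products of at most `r` generators
  have hball : ∀ r : ℕ, ∃ F : Finset Γ, ∀ (a b : X) (p : G.Walk a b), p.length ≤ r →
      ∃ γ ∈ F, γ • a = b := by
    intro r
    induction r with
    | zero =>
      refine ⟨{1}, fun a b p hp => ?_⟩
      cases p with
      | nil => exact ⟨1, by simp, by simp⟩
      | cons h q =>
        rw [SimpleGraph.Walk.length_cons] at hp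
        omega
    | succ r ih =>
      obtain ⟨F, hF⟩ := ih
      refine ⟨insert 1 (Finset.image₂ (fun g s => g * s) F S), fun a b p hp => ?_⟩
      cases p with
      | nil => exact ⟨1, by simp, by simp⟩
      | cons h q =>
        rw [SimpleGraph.Walk.length_cons] at hp
        obtain ⟨-, s, hs, hsa⟩ := h
        obtain ⟨γ, hγ, hγb⟩ := hF _ _ q (by omega)
        refine ⟨γ * s, Finset.mem_insert_of_mem (Finset.mem_image₂_of_mem hγ hs), ?_⟩
        rw [mul_smul, hsa, hγb]
  obtain ⟨c, hcm, hc1, hc2⟩ := Run7.h932.vizing_asi_one X G S.card hGm hdeg (by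
    intro r
    obtain ⟨F, hF⟩ := hball r
    obtain ⟨U, hU1, hU2, hU3⟩ := hasi F
    refine ⟨U, hU1, hU2, fun i x => (hU3 i x).subset ?_⟩
    intro y hy
    have hy' := (SimpleGraph.reachable_iff_reflTransGen x y).mp hy
    refine Relation.ReflTransGen.mono (fun a b hab => ?_) _ _ hy'
    rw [SimpleGraph.fromRel_adj] at hab
    rcases hab.2 with ⟨ha, hb, p, hp⟩ | ⟨hb, ha, p, hp⟩
    · exact ⟨ha, hb, hF _ _ p hp⟩
    · exact ⟨ha, hb, hF _ _ p.reverse (by rwa [SimpleGraph.Walk.length_reverse])⟩)
  -- convert the colouring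
  let c' : X × X → Fin (S.card + 1) := fun p =>
    if h : G.Adj p.1 p.2 then ⟨c p, (hc1 p.1 p.2 h).1⟩ else 0
  refine ⟨c', ?_, ?_, ?_⟩
  · refine measurable_to_countable' (fun k => ?_)
    have h1 : c' ⁻¹' {k} = ({p : X × X | G.Adj p.1 p.2} ∩ c ⁻¹' {(k : ℕ)}) ∪
        ({p : X × X | G.Adj p.1 p.2}ᶜ ∩ {_p : X × X | (0 : Fin (S.card + 1)) = k}) := by
      ext p
      by_cases h : G.Adj p.1 p.2
      · simp [c', h, Fin.ext_iff]
      · simp [c', h]
    rw [h1]
    exact (hGm.inter (hcm (measurableSet_singleton _))).union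
      (hGm.compl.inter (MeasurableSet.const _))
  · intro x y
    by_cases h : G.Adj x y
    · have h' : G.Adj y x := h.symm
      simp only [c', h, h', dif_pos]
      exact Fin.ext (hc1 x y h).2
    · have h' : ¬ G.Adj y x := fun h' => h h'.symm
      simp only [c', h, h', dif_neg, not_false_eq_true]
  · intro x y z hxy hxz hyz he
    have h1 : G.Adj x y := hxy
    have h2 : G.Adj x z := hxz
    simp only [c', h1, h2, dif_pos] at he
    exact hc2 x y z h1 h2 hyz (congrArg Fin.val he)

end Pool.Agent.Results.MP_110ff7_lc.SeparationIndexOne
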